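import Pool.Agent.Q218.SP.Gen

set_option autoImplicit false

namespace Pool.Agent.Q218.SP

variable {V ι : Type} [Fintype ι] [DecidableEq ι]

open Classical in
/-- one step of the greedy algorithm -/
noncomputable def step (s d : ι → V) (F : Finset ι) (i : ι) : Finset ι :=
  if (gr s d (F : Set ι)).Reachable (s i) (d i) then F else insert i F

noncomputable def greedy (s d : ι → V) : List ι → Finset ι → Finset ι
  | [], F => F
  | i :: l, F => greedy s d l (step s d F i)

variable {s d : ι → V}

omit [Fintype ι] in
lemma reach_step (hne : ∀ i, s i ≠ d i) {F S : Finset ι} (i : ι)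
    (hSF : ∀ u v, (gr s d (S : Set ι)).Reachable u v ↔ (gr s d (F : Set ι)).Reachable u v)
    (u v : V) :
    (gr s d ((insert i S : Finset ι) : Set ι)).Reachable u v ↔
      (gr s d ((step s d F i : Finset ι) : Set ι)).Reachable u v := by
  rw [Finset.coe_insert, gr_insert, reach_sup' _ _ _ _ _ (hne i)]
  unfold step
  split_ifs with h
  · rw [hSF, hSF, hSF, hSF, hSF]
    constructor
    · rintro (h1 | ⟨h1, h2⟩ | ⟨h1, h2⟩)
      · exact h1
      · exact h1.trans (h.trans h2)
      · exact h1.trans (h.symm.trans h2)
    · intro h1; exact Or.inl h1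
  · rw [Finset.coe_insert, gr_insert, reach_sup' _ _ _ _ _ (hne i), hSF, hSF, hSF, hSF, hSF]

omit [Fintype ι] in
lemma greedy_spec (hne : ∀ i, s i ≠ d i) (w : ι → ℝ) :
    ∀ (l : List ι) (S F : Finset ι), l.Pairwise (fun i j => w i < w j) →
      (∀ u v, (gr s d (S : Set ι)).Reachable u v ↔ (gr s d (F : Set ι)).Reachable u v) →
      (∀ j ∈ S, ∀ i ∈ l, w j < w i) → (∀ i, i ∈ S ∨ i ∈ l) →
      ∀ i, i ∈ greedy s d l F ↔ i ∈ F ∨
        (i ∈ l ∧ ¬ (gr s d {j | w j < w i}).Reachable (s i) (d i)) := by
  intro l
  induction l with
  | nil => intro S F _ _ _ _ i; simp [greedy]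
  | cons a l ih =>
    intro S F hs hSF hS hcov i
    rw [List.pairwise_cons] at hs
    have hset : {j | w j < w a} = (S : Set ι) := by
      ext j
      simp only [Set.mem_ofPred_eq, Finset.mem_coe]
      constructor
      · intro hj
        rcases hcov j with h | h
        · exact h
        · rcases List.mem_cons.1 h with rfl | h
          · exact absurd hj (lt_irrefl _)
          · exact absurd (hs.1 j h) (not_lt.2 hj.le)
      · intro hj
        exact hS j hj a (by simp)
    have hih := ih (insert a S) (step s d F a) hs.2 (reach_step hne a hSF) (by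
        intro j hj k hk
        rcases Finset.mem_insert.1 hj with rfl | hj
        · exact hs.1 k hk
        · exact hS j hj k (by simp [hk])) (by
        intro j
        rcases hcov j with h | h
        · exact Or.inl (Finset.mem_insert_of_mem h)
        · rcases List.mem_cons.1 h with rfl | h
          · exact Or.inl (Finset.mem_insert_self _ _)
          · exact Or.inr h) i
    have hna : a ∉ l := fun h => lt_irrefl _ (hs.1 a h)
    rw [greedy, hih]
    have hra : (gr s d {j | w j < w a}).Reachable (s a) (d a) ↔
        (gr s d (F : Set ι)).Reachable (s a) (d a) := by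
      rw [hset]; exact hSF _ _
    unfold step
    by_cases hr : (gr s d (F : Set ι)).Reachable (s a) (d a)
    · rw [if_pos hr, List.mem_cons]
      constructor
      · rintro (h | ⟨h1, h2⟩)
        · exact Or.inl h
        · exact Or.inr ⟨Or.inr h1, h2⟩
      · rintro (h | ⟨rfl | h1, h2⟩)
        · exact Or.inl h
        · exact absurd (hra.2 hr) h2
        · exact Or.inr ⟨h1, h2⟩
    · rw [if_neg hr, List.mem_cons, Finset.mem_insert]
      constructor
      · rintro ((rfl | h) | ⟨h1, h2⟩)
        · exact Or.inr ⟨Or.inl rfl, fun h => hr (hra.1 h)⟩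
        · exact Or.inl h
        · exact Or.inr ⟨Or.inr h1, h2⟩
      · rintro (h | ⟨rfl | h1, h2⟩)
        · exact Or.inl (Or.inr h)
        · exact Or.inl (Or.inl rfl)
        · exact Or.inr ⟨h1, h2⟩

omit [Fintype ι] in
lemma greedy_acyclic : ∀ (l : List ι) (F : Finset ι), (gr s d (F : Set ι)).IsAcyclic →
    (gr s d ((greedy s d l F : Finset ι) : Set ι)).IsAcyclic := by
  intro l
  induction l with
  | nil => intro F h; exact h
  | cons a l ih =>
    intro F h
    rw [greedy]
    apply ih
    unfold step
    split_ifs with hr
    · exact h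
    · rw [Finset.coe_insert]; exact acyclic_insert h hr

omit [Fintype ι] in
lemma greedy_reach (hne : ∀ i, s i ≠ d i) : ∀ (l : List ι) (S F : Finset ι),
    (∀ u v, (gr s d (S : Set ι)).Reachable u v ↔ (gr s d (F : Set ι)).Reachable u v) →
    ∀ u v, (gr s d ((S ∪ l.toFinset : Finset ι) : Set ι)).Reachable u v ↔
      (gr s d ((greedy s d l F : Finset ι) : Set ι)).Reachable u v := by
  intro l
  induction l with
  | nil => intro S F h; simpa [greedy] using h
  | cons a l ih =>
    intro S F h u v
    rw [greedy, ← ih (insert a S) (step s d F a) (reach_step hne a h)]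
    have : S ∪ (a :: l).toFinset = insert a S ∪ l.toFinset := by
      ext x; simp only [List.toFinset_cons, Finset.mem_union, Finset.mem_insert]; tauto
    rw [this]

/-! ### counting orderings -/

/-- all orderings of `R` (when `k = R.card`) -/
def LL : ℕ → Finset ι → Finset (List ι)
  | 0, _ => {[]}
  | k + 1, R => R.biUnion (fun e => (LL k (R.erase e)).image (List.cons e))

omit [Fintype ι] in
lemma mem_LL : ∀ (k : ℕ) (R : Finset ι), R.card = k → ∀ l : List ι,
    l ∈ LL k R ↔ l.Nodup ∧ l.toFinset = R := by
  intro k
  induction k with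
  | zero =>
    intro R hR l
    rw [Finset.card_eq_zero] at hR
    subst hR
    simp only [LL, Finset.mem_singleton]
    constructor
    · rintro rfl; simp
    · rintro ⟨-, h⟩
      rwa [List.toFinset_eq_empty_iff] at h
  | succ k ih =>
    intro R hR l
    simp only [LL, Finset.mem_biUnion, Finset.mem_image]
    constructor
    · rintro ⟨e, he, l', hl', rfl⟩
      have hc : (R.erase e).card = k := by rw [Finset.card_erase_of_mem he]; omega
      rw [ih _ hc] at hl'
      obtain ⟨h1, h2⟩ := hl'
      rw [List.nodup_cons, List.toFinset_cons, h2, Finset.insert_erase he]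
      refine ⟨⟨?_, h1⟩, rfl⟩
      intro h
      have : e ∈ R.erase e := by rw [← h2]; exact List.mem_toFinset.2 h
      simp at this
    · rintro ⟨h1, h2⟩
      cases l with
      | nil =>
        simp only [List.toFinset_nil] at h2
        rw [← h2] at hR; simp at hR
      | cons e l' =>
        rw [List.nodup_cons] at h1
        have he : e ∈ R := by rw [← h2]; simp
        have hc : (R.erase e).card = k := by rw [Finset.card_erase_of_mem he]; omega
        refine ⟨e, he, l', ?_, rfl⟩
        rw [ih _ hc]
        refine ⟨h1.2, ?_⟩
        rw [← h2, List.toFinset_cons, Finset.erase_insert]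
        rw [List.mem_toFinset]; exact h1.1

open Classical in
/-- number of orderings of `R` whose greedy forest, started from `F`, satisfies `P` -/
noncomputable def cn (s d : ι → V) (P : Finset ι → Prop) (k : ℕ) (R F : Finset ι) : ℕ :=
  ((LL k R).filter (fun l => P (greedy s d l F))).card

omit [Fintype ι] in
lemma cn_succ (P : Finset ι → Prop) (k : ℕ) (R F : Finset ι) :
    cn s d P (k + 1) R F = ∑ e ∈ R, cn s d P k (R.erase e) (step s d F e) := by
  classical
  unfold cn
  simp only [LL]
  rw [Finset.filter_biUnion, Finset.card_biUnion]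
  · refine Finset.sum_congr rfl fun e _ => ?_
    rw [Finset.filter_image, Finset.card_image_of_injective _ (List.cons_injective)]
    rfl
  · intro e _ e' _ hee'
    rw [Function.onFun, Finset.disjoint_left]
    intro l hl hl'
    obtain ⟨l1, -, rfl⟩ := Finset.mem_image.1 (Finset.mem_filter.1 hl).1
    obtain ⟨l2, -, h2⟩ := Finset.mem_image.1 (Finset.mem_filter.1 hl').1
    exact hee' (List.cons_eq_cons.1 h2).1.symm

open Classical in
lemma count_main (hne : ∀ i, s i ≠ d i) (P : Finset ι → Prop) (H : Finset ι → ℕ) (D : ℕ)
    (h1 : ∀ F : Finset ι, (∀ i, (gr s d (F : Set ι)).Reachable (s i) (d i)) →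
      H F = D * (if P F then 1 else 0))
    (h2 : ∀ F : Finset ι,
      (Finset.univ.filter (fun i => ¬ (gr s d (F : Set ι)).Reachable (s i) (d i))).card * H F =
        ∑ i ∈ Finset.univ.filter (fun i => ¬ (gr s d (F : Set ι)).Reachable (s i) (d i)),
          H (insert i F)) :
    ∀ (k : ℕ) (R F : Finset ι), R.card = k →
      (∀ i, i ∉ R → (gr s d (F : Set ι)).Reachable (s i) (d i)) →
      D * cn s d P k R F = k.factorial * H F := by
  intro k
  induction k with
  | zero =>
    intro R F hR hl
    rw [Finset.card_eq_zero] at hR
    subst hR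
    rw [h1 F (fun i => hl i (by simp))]
    simp only [cn, LL, Nat.factorial_zero, one_mul]
    congr 1
    rw [Finset.filter_singleton]
    simp only [greedy]
    split_ifs <;> rfl
  | succ k ih =>
    intro R F hR hl
    rw [cn_succ, Finset.mul_sum]
    have hstep : ∀ e ∈ R, D * cn s d P k (R.erase e) (step s d F e) =
        k.factorial * H (step s d F e) := by
      intro e he
      apply ih
      · rw [Finset.card_erase_of_mem he]; omega
      · intro i hi
        rw [← reach_step hne e (fun u v => Iff.rfl)]
        by_cases hie : i = e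
        · subst hie
          apply SimpleGraph.Adj.reachable
          apply gr_adj_of_mem hne
          simp
        · have hiR : i ∉ R := fun h => hi (Finset.mem_erase.2 ⟨hie, h⟩)
          refine (hl i hiR).mono (gr_mono ?_)
          intro x hx
          simp only [Finset.coe_insert]
          exact Set.mem_insert_of_mem _ hx
    rw [Finset.sum_congr rfl hstep, ← Finset.mul_sum]
    set NL := Finset.univ.filter (fun i => ¬ (gr s d (F : Set ι)).Reachable (s i) (d i)) with hNL
    have hNLR : NL ⊆ R := by
      intro i hi
      by_contra h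
      exact (Finset.mem_filter.1 hi).2 (hl i h)
    have hsum : ∑ e ∈ R, H (step s d F e) = (R.card - NL.card) * H F + NL.card * H F := by
      rw [← Finset.sum_sdiff hNLR, h2 F, ← Finset.card_sdiff_of_subset hNLR]
      congr 1
      · rw [Finset.sum_congr rfl (g := fun _ => H F)]
        · rw [Finset.sum_const, smul_eq_mul]
        · intro e he
          have : (gr s d (F : Set ι)).Reachable (s e) (d e) := by
            by_contra h
            exact (Finset.mem_sdiff.1 he).2 (Finset.mem_filter.2 ⟨Finset.mem_univ _, h⟩)
          unfold step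
          rw [if_pos this]
      · refine Finset.sum_congr rfl fun e he => ?_
        unfold step
        rw [if_neg (Finset.mem_filter.1 he).2]
    have hle := Finset.card_le_card hNLR
    rw [hsum, ← add_mul, Nat.sub_add_cancel hle, hR, Nat.factorial_succ]
    ring

end Pool.Agent.Q218.SP
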