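import Mathlib

set_option autoImplicit false

open MeasureTheory Set
open scoped ENNReal

namespace Pool.Agent.Q218.SP

theorem null_noninj (n : ℕ) : volume {y : Fin n → ℝ | ¬ Function.Injective y} = 0 := by
  have hsub : {y : Fin n → ℝ | ¬ Function.Injective y} ⊆
      ⋃ p : {p : Fin n × Fin n // p.1 ≠ p.2}, {y : Fin n → ℝ | y p.1.1 = y p.1.2} := by
    intro y hy
    simp only [Set.mem_ofPred_eq, Function.Injective] at hy
    push Not at hy
    obtain ⟨i, j, h1, h2⟩ := hy
    simp only [Set.mem_iUnion, Set.mem_ofPred_eq]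
    exact ⟨⟨(i, j), h2⟩, h1⟩
  refine measure_mono_null hsub ?_
  rw [measure_iUnion_null_iff]
  rintro ⟨⟨i, j⟩, hij⟩
  simp only at hij ⊢
  let L : (Fin n → ℝ) →ₗ[ℝ] ℝ :=
    (LinearMap.proj (R := ℝ) (φ := fun _ : Fin n => ℝ) i) -
      (LinearMap.proj (R := ℝ) (φ := fun _ : Fin n => ℝ) j)
  have hL : {y : Fin n → ℝ | y i = y j} = (LinearMap.ker L : Set (Fin n → ℝ)) := by
    ext y
    simp [L, sub_eq_zero]
  rw [hL]
  refine MeasureTheory.Measure.addHaar_submodule volume _ ?_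
  intro htop
  rw [LinearMap.ker_eq_top] at htop
  have h1 : L (Pi.single i 1) = 0 := by rw [htop]; rfl
  simp [L, hij.symm] at h1

/-- the unit cube -/
def cube (n : ℕ) : Set (Fin n → ℝ) := {w | ∀ i, w i ∈ Icc (0 : ℝ) 1}

lemma cube_eq (n : ℕ) : cube n = Set.pi Set.univ (fun _ => Icc (0 : ℝ) 1) := by
  ext w; simp only [cube, Set.mem_ofPred_eq, Set.mem_pi, Set.mem_univ, true_imp_iff]

lemma cube_vol (n : ℕ) : volume (cube n) = 1 := by
  rw [cube_eq, volume_pi_pi]
  simp

lemma cube_meas (n : ℕ) : MeasurableSet (cube n) := by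
  rw [cube_eq]
  exact MeasurableSet.univ_pi (fun _ => measurableSet_Icc)

/-- the piece of the cube sorted by `σ` -/
def TS {n : ℕ} (σ : Equiv.Perm (Fin n)) : Set (Fin n → ℝ) :=
  {y | y ∈ cube n ∧ Monotone (fun i => y (σ i))}

theorem meas_mono (n : ℕ) : MeasurableSet {y : Fin n → ℝ | Monotone y} := by
  have h : {y : Fin n → ℝ | Monotone y} =
      ⋂ i : Fin n, ⋂ j : Fin n, {y : Fin n → ℝ | i ≤ j → y i ≤ y j} := by
    ext y
    simp only [Set.mem_ofPred_eq, Set.mem_iInter, Monotone]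
  rw [h]
  refine MeasurableSet.iInter fun i => MeasurableSet.iInter fun j => ?_
  by_cases hij : i ≤ j
  · have h2 : {y : Fin n → ℝ | i ≤ j → y i ≤ y j} = {y : Fin n → ℝ | y i ≤ y j} := by
      ext y; simp [hij]
    rw [h2]
    exact measurableSet_le (measurable_pi_apply i) (measurable_pi_apply j)
  · have h2 : {y : Fin n → ℝ | i ≤ j → y i ≤ y j} = Set.univ := by
      ext y; simp [hij]
    rw [h2]
    exact MeasurableSet.univ

theorem perm_mp (n : ℕ) (σ : Equiv.Perm (Fin n)) :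
    MeasurePreserving (fun (y : Fin n → ℝ) => fun i => y (σ i)) volume volume := by
  have h := MeasureTheory.volume_measurePreserving_piCongrLeft (fun _ : Fin n => ℝ) σ.symm
  have h2 : (fun (y : Fin n → ℝ) => fun i => y (σ i)) =
      ⇑(MeasurableEquiv.piCongrLeft (fun _ : Fin n => ℝ) σ.symm) := by
    funext y i
    have h3 := Equiv.piCongrLeft_apply_apply (P := fun _ : Fin n => ℝ) (e := σ.symm) y (σ i)
    simp only [Equiv.symm_apply_apply] at h3
    rw [MeasurableEquiv.coe_piCongrLeft, h3]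
  rw [h2]
  exact h

theorem TS_eq {n : ℕ} (σ : Equiv.Perm (Fin n)) :
    TS σ = (fun (y : Fin n → ℝ) => fun i => y (σ i)) ⁻¹' (cube n ∩ {y | Monotone y}) := by
  ext y
  simp only [TS, Set.mem_ofPred_eq, Set.mem_preimage, Set.mem_inter_iff, cube]
  constructor
  · rintro ⟨h1, h2⟩
    exact ⟨fun i => h1 (σ i), h2⟩
  · rintro ⟨h1, h2⟩
    refine ⟨fun i => ?_, h2⟩
    have h3 := h1 (σ.symm i)
    simpa using h3

theorem TS_vol {n : ℕ} (σ : Equiv.Perm (Fin n)) :
    MeasurableSet (TS σ) ∧ volume (TS σ) = volume (cube n ∩ {y | Monotone y}) := by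
  have hm2 : MeasurableSet (cube n ∩ {y : Fin n → ℝ | Monotone y}) :=
    (cube_meas n).inter (meas_mono n)
  rw [TS_eq σ]
  exact ⟨(perm_mp n σ).measurable hm2, (perm_mp n σ).measure_preimage hm2.nullMeasurableSet⟩

theorem strict_of {n : ℕ} {y : Fin n → ℝ} (hy : Function.Injective y)
    {σ : Equiv.Perm (Fin n)} (h1 : Monotone (fun i => y (σ i))) :
    StrictMono (fun i => y (σ i)) :=
  h1.strictMono_of_injective (fun _ _ hij => σ.injective (hy hij))

theorem TS_unique {n : ℕ} (y : Fin n → ℝ) (hy : Function.Injective y)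
    (σ τ : Equiv.Perm (Fin n)) (h1 : Monotone (fun i => y (σ i)))
    (h2 : Monotone (fun i => y (τ i))) : σ = τ := by
  have s1 := strict_of hy h1
  have s2 := strict_of hy h2
  have h3 : (fun i => y (σ i)) = (fun i => y (τ i)) := by
    refine StrictMono.range_inj s1 s2 |>.1 ?_
    ext x
    simp only [Set.mem_range]
    constructor
    · rintro ⟨i, hi⟩
      exact ⟨τ.symm (σ i), by simpa using hi⟩
    · rintro ⟨i, hi⟩
      exact ⟨σ.symm (τ i), by simpa using hi⟩
  ext i
  have h4 := congrFun h3 i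
  exact congrArg Fin.val (hy h4)

theorem TS_exists {n : ℕ} (y : Fin n → ℝ) :
    ∃ σ : Equiv.Perm (Fin n), Monotone (fun i => y (σ i)) :=
  ⟨Tuple.sort y, Tuple.monotone_sort y⟩

lemma TS_disj {n : ℕ} (s : Set (Equiv.Perm (Fin n))) :
    s.Pairwise (Function.onFun (AEDisjoint volume) (TS (n := n))) := by
  intro σ _ τ _ hne
  refine measure_mono_null ?_ (null_noninj n)
  rintro y ⟨h1, h2⟩
  intro hinj
  exact hne (TS_unique y hinj σ τ h1.2 h2.2)

lemma TS_measure {n : ℕ} (S : Finset (Equiv.Perm (Fin n))) :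
    volume (⋃ σ ∈ S, TS σ) = S.card * volume (cube n ∩ {y | Monotone y}) := by
  rw [measure_biUnion_finset₀ (TS_disj _) (fun σ _ => (TS_vol σ).1.nullMeasurableSet)]
  rw [Finset.sum_congr rfl (fun σ _ => (TS_vol σ).2), Finset.sum_const, nsmul_eq_mul]

lemma mono_vol (n : ℕ) : (n.factorial : ℝ≥0∞) * volume (cube n ∩ {y | Monotone y}) = 1 := by
  have h := TS_measure (n := n) Finset.univ
  rw [Finset.card_univ, Fintype.card_perm, Fintype.card_fin] at h
  rw [← h, ← cube_vol n]
  congr 1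
  ext y
  simp only [Finset.mem_univ, Set.iUnion_true, Set.mem_iUnion]
  constructor
  · rintro ⟨σ, h, _⟩; exact h
  · intro h
    obtain ⟨σ, hσ⟩ := TS_exists y
    exact ⟨σ, h, hσ⟩

open Classical in
/-- probability of an event depending only on the order of i.i.d. uniform weights -/
theorem vol_orders {n : ℕ} (Q : (Fin n → ℝ) → Prop) (good : Equiv.Perm (Fin n) → Prop)
    (h : ∀ w, Function.Injective w → ∀ σ : Equiv.Perm (Fin n),
      StrictMono (fun i => w (σ i)) → (Q w ↔ good σ)) :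
    (volume {w : Fin n → ℝ | (∀ i, w i ∈ Icc (0 : ℝ) 1) ∧ Q w}).toReal =
      ((Finset.univ.filter good).card : ℝ) / (n.factorial : ℝ) := by
  have hae : volume {w : Fin n → ℝ | (∀ i, w i ∈ Icc (0 : ℝ) 1) ∧ Q w} =
      volume (⋃ σ ∈ Finset.univ.filter good, TS σ) := by
    apply measure_congr
    have hN : ∀ᵐ w : Fin n → ℝ, Function.Injective w := by
      rw [ae_iff]; exact null_noninj n
    filter_upwards [hN] with w hw
    apply propext
    change ((∀ i, w i ∈ Icc (0 : ℝ) 1) ∧ Q w) ↔ w ∈ ⋃ σ ∈ Finset.univ.filter good, TS σ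
    simp only [Set.mem_iUnion, Finset.mem_filter, Finset.mem_univ, true_and]
    constructor
    · rintro ⟨h1, h2⟩
      obtain ⟨σ, hσ⟩ := TS_exists w
      exact ⟨σ, (h w hw σ (strict_of hw hσ)).1 h2, h1, hσ⟩
    · rintro ⟨σ, hσ, h1, h2⟩
      exact ⟨h1, (h w hw σ (strict_of hw h2)).2 hσ⟩
  rw [hae, TS_measure]
  have h1 := mono_vol n
  have h2 := congrArg ENNReal.toReal h1
  rw [ENNReal.toReal_mul, ENNReal.toReal_natCast, ENNReal.toReal_one] at h2
  rw [ENNReal.toReal_mul, ENNReal.toReal_natCast]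
  have h3 : (n.factorial : ℝ) ≠ 0 := by exact_mod_cast n.factorial_ne_zero
  field_simp
  rw [mul_assoc, mul_comm _ (n.factorial : ℝ), h2, mul_one]

end Pool.Agent.Q218.SP
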