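import Pool.Agent.Q218.SP.Defs
import Pool.Agent.Q218.SP.Cnt
import Pool.Agent.Q218.SP.Ord

set_option autoImplicit false

open MeasureTheory Set
open scoped ENNReal

namespace Pool.Agent.Q218.SP

variable {V : Type} {m : ℕ} {s d : Fin m → V}

open Classical in
lemma count_perms (P : Finset (Fin m) → Prop) :
    (Finset.univ.filter (fun σ : Equiv.Perm (Fin m) => P (greedy s d (List.ofFn σ) ∅))).card =
      cn s d P m Finset.univ ∅ := by
  unfold cn
  apply Finset.card_bij (fun (σ : Equiv.Perm (Fin m)) _ => List.ofFn σ)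
  · intro σ hσ
    rw [Finset.mem_filter] at hσ ⊢
    refine ⟨?_, hσ.2⟩
    rw [mem_LL m Finset.univ (by simp)]
    refine ⟨List.nodup_ofFn.2 σ.injective, ?_⟩
    ext i
    simp only [List.mem_toFinset, Finset.mem_univ, iff_true]
    rw [List.mem_ofFn]
    exact ⟨σ.symm i, by simp⟩
  · intro σ _ τ _ h
    exact Equiv.ext (fun i => congrFun (List.ofFn_injective h) i)
  · intro l hl
    rw [Finset.mem_filter, mem_LL m Finset.univ (by simp)] at hl
    obtain ⟨⟨h1, h2⟩, h3⟩ := hl
    have hlen : l.length = m := by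
      have := List.toFinset_card_of_nodup h1
      rw [h2, Finset.card_univ, Fintype.card_fin] at this
      exact this.symm
    let f : Fin m → Fin m := fun i => l.get (Fin.cast hlen.symm i)
    have hinj : Function.Injective f := by
      intro a b hab
      have := (List.nodup_iff_injective_get.1 h1) hab
      simpa using this
    have hbij : Function.Bijective f := by
      rw [Fintype.bijective_iff_injective_and_card]
      exact ⟨hinj, rfl⟩
    have hfl : List.ofFn f = l := by
      apply List.ext_getElem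
      · simp [hlen]
      · intro i h1 h2
        simp [f]
    refine ⟨Equiv.ofBijective _ hbij, ?_, ?_⟩
    · rw [Finset.mem_filter]
      refine ⟨Finset.mem_univ _, ?_⟩
      have : List.ofFn (Equiv.ofBijective f hbij) = l := hfl
      rw [this]; exact h3
    · exact hfl

open Classical in
lemma vol_mst (hne : ∀ i, s i ≠ d i) (hinj : Function.Injective (fun i => s(s i, d i)))
    (hconn : (gr s d (Set.univ : Set (Fin m))).Connected) (Sp : SimpleGraph V → Prop)
    (H : Finset (Fin m) → ℕ) (D : ℕ) (hD : 0 < D)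
    (h1 : ∀ F : Finset (Fin m), (∀ i, (gr s d (F : Set (Fin m))).Reachable (s i) (d i)) →
      H F = D * (if Sp (gr s d (F : Set (Fin m))) then 1 else 0))
    (h2 : ∀ F : Finset (Fin m),
      (Finset.univ.filter
        (fun i => ¬ (gr s d (F : Set (Fin m))).Reachable (s i) (d i))).card * H F =
        ∑ i ∈ Finset.univ.filter
          (fun i => ¬ (gr s d (F : Set (Fin m))).Reachable (s i) (d i)), H (insert i F)) :
    (volume {w : Fin m → ℝ | (∀ i, w i ∈ Icc (0 : ℝ) 1) ∧
      ∃ F : Finset (Fin m), IsM s d w F ∧ Sp (gr s d (F : Set (Fin m)))}).toReal =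
      (H ∅ : ℝ) / (D : ℝ) := by
  rw [vol_orders (fun w => ∃ F : Finset (Fin m), IsM s d w F ∧ Sp (gr s d (F : Set (Fin m))))
    (fun σ => Sp (gr s d ((greedy s d (List.ofFn σ) ∅ : Finset (Fin m)) : Set (Fin m))))]
  · have hc := count_perms (s := s) (d := d) (fun F => Sp (gr s d (F : Set (Fin m))))
    rw [hc]
    have hm := count_main hne (fun F => Sp (gr s d (F : Set (Fin m)))) H D h1 h2 m Finset.univ ∅
      (by simp) (fun i hi => absurd (Finset.mem_univ i) hi)
    have hm' : (D : ℝ) * (cn s d (fun F => Sp (gr s d (F : Set (Fin m)))) m Finset.univ ∅ : ℝ) =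
        (m.factorial : ℝ) * (H ∅ : ℝ) := by exact_mod_cast hm
    have h3 : (m.factorial : ℝ) ≠ 0 := by exact_mod_cast m.factorial_ne_zero
    have h4 : (D : ℝ) ≠ 0 := by positivity
    field_simp
    linarith
  · intro w hw σ hσ
    set K := greedy s d (List.ofFn σ) ∅ with hK
    have hcov : ∀ i, i ∈ List.ofFn σ := fun i => by
      rw [List.mem_ofFn]; exact ⟨σ.symm i, by simp⟩
    have hspec := greedy_spec hne w (List.ofFn σ) ∅ ∅
      (by
        rw [List.pairwise_ofFn]
        intro i j hij
        exact hσ hij) (fun _ _ => Iff.rfl) (by simp)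
      (fun i => Or.inr (hcov i))
    have hreach := greedy_reach (s := s) (d := d) hne (List.ofFn σ) ∅ ∅ (fun _ _ => Iff.rfl)
    have huniv : ((∅ ∪ (List.ofFn σ).toFinset : Finset (Fin m)) : Set (Fin m)) = Set.univ := by
      ext i
      simp only [Finset.empty_union, Finset.mem_coe, List.mem_toFinset, Set.mem_univ, iff_true]
      exact hcov i
    have htree : (gr s d (K : Set (Fin m))).IsTree := by
      constructor
      · rw [SimpleGraph.connected_iff]
        refine ⟨fun u v => ?_, hconn.nonempty⟩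
        rw [← hreach u v, huniv]
        exact hconn u v
      · apply greedy_acyclic
        have : gr s d ((∅ : Finset (Fin m)) : Set (Fin m)) = ⊥ := by
          unfold gr; simp
        rw [this]
        exact SimpleGraph.isAcyclic_bot
    have hiff := mst_eq hne hinj (w := w) htree (fun i hi => (hspec i).2 (Or.inr ⟨hcov i, hi⟩))
    constructor
    · rintro ⟨F, hF, hSp⟩
      rw [(hiff F).1 hF] at hSp
      exact hSp
    · intro h
      exact ⟨K, (hiff K).2 rfl, h⟩

/-! ### transfer to the edge set of a graph -/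

variable [Fintype V]

omit [Fintype V] in
lemma sub_eq (G : SimpleGraph V) (φ : Fin m ≃ G.edgeSet)
    (hφ : ∀ i, ((φ i : G.edgeSet) : Sym2 V) = s(s i, d i)) (F : Finset (Fin m)) :
    sub G ((F.map φ.toEmbedding : Finset G.edgeSet) : Set G.edgeSet) =
      gr s d (F : Set (Fin m)) := by
  unfold sub gr
  congr 1
  ext e
  simp only [Finset.coe_map, Set.mem_image, Finset.mem_coe, Equiv.coe_toEmbedding]
  constructor
  · rintro ⟨f, ⟨i, hi, rfl⟩, rfl⟩
    exact ⟨i, hi, (hφ i).symm⟩
  · rintro ⟨i, hi, rfl⟩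
    exact ⟨φ i, ⟨i, hi, rfl⟩, hφ i⟩

lemma isMST_iff (G : SimpleGraph V) [Fintype G.edgeSet] (φ : Fin m ≃ G.edgeSet)
    (hφ : ∀ i, ((φ i : G.edgeSet) : Sym2 V) = s(s i, d i)) (w : G.edgeSet → ℝ)
    (F : Finset (Fin m)) :
    IsMST G w (F.map φ.toEmbedding) ↔ IsM s d (fun i => w (φ i)) F := by
  unfold IsMST IsM
  rw [sub_eq G φ hφ]
  refine and_congr Iff.rfl ?_
  constructor
  · intro h F' hF'
    have := h (F'.map φ.toEmbedding) (by rw [sub_eq G φ hφ]; exact hF')
    simpa [Finset.sum_map] using this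
  · intro h F' hF'
    have hF'' : (F'.map φ.symm.toEmbedding).map φ.toEmbedding = F' := by
      ext x; simp
    rw [← hF''] at hF' ⊢
    rw [sub_eq G φ hφ] at hF'
    have := h _ hF'
    simpa [Finset.sum_map] using this

lemma pMST_eq (G : SimpleGraph V) (φ : Fin m ≃ G.edgeSet)
    (hφ : ∀ i, ((φ i : G.edgeSet) : Sym2 V) = s(s i, d i)) :
    pMST G = (volume {w : Fin m → ℝ | (∀ i, w i ∈ Icc (0 : ℝ) 1) ∧
      ∃ F : Finset (Fin m), IsM s d w F ∧ Splittable (gr s d (F : Set (Fin m)))}).toReal := by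
  classical
  unfold pMST
  congr 1
  have hmp := MeasureTheory.volume_measurePreserving_piCongrLeft (fun _ : G.edgeSet => ℝ) φ
  rw [← hmp.measure_preimage_equiv]
  congr 1
  ext w
  have happ : ∀ i, (MeasurableEquiv.piCongrLeft (fun _ : G.edgeSet => ℝ) φ) w (φ i) = w i := by
    intro i
    rw [MeasurableEquiv.coe_piCongrLeft]
    exact Equiv.piCongrLeft_apply_apply (P := fun _ : G.edgeSet => ℝ) (e := φ) w i
  have hfun : (fun i => (MeasurableEquiv.piCongrLeft (fun _ : G.edgeSet => ℝ) φ) w (φ i)) = w :=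
    funext happ
  simp only [Set.mem_preimage, Set.mem_ofPred_eq]
  refine and_congr ?_ ?_
  · constructor
    · intro h i
      have := h (φ i)
      rwa [happ] at this
    · intro h e
      have := h (φ.symm e)
      rw [← happ, Equiv.apply_symm_apply] at this
      exact this
  · constructor
    · rintro ⟨F, hF, hSp⟩
      have hF'' : (F.map φ.symm.toEmbedding).map φ.toEmbedding = F := by
        ext x; simp
      refine ⟨F.map φ.symm.toEmbedding, ?_, ?_⟩
      · rw [← hF'', isMST_iff G φ hφ, hfun] at hF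
        exact hF
      · rw [← hF'', sub_eq G φ hφ] at hSp
        exact hSp
    · rintro ⟨F, hF, hSp⟩
      refine ⟨F.map φ.toEmbedding, ?_, ?_⟩
      · rw [isMST_iff G φ hφ, hfun]; exact hF
      · rw [sub_eq G φ hφ]; exact hSp

lemma ncard_transfer (G : SimpleGraph V) (φ : Fin m ≃ G.edgeSet)
    (hφ : ∀ i, ((φ i : G.edgeSet) : Sym2 V) = s(s i, d i)) (Q : SimpleGraph V → Prop) :
    {F : Finset G.edgeSet | Q (sub G (F : Set G.edgeSet))}.ncard =
      {F : Finset (Fin m) | Q (gr s d (F : Set (Fin m)))}.ncard := by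
  symm
  apply Set.ncard_congr (fun F _ => F.map φ.toEmbedding)
  · intro F hF
    simp only [Set.mem_ofPred_eq] at hF ⊢
    rw [sub_eq G φ hφ]; exact hF
  · intro F F' _ _ h
    exact Finset.map_injective _ h
  · intro F hF
    have hF'' : (F.map φ.symm.toEmbedding).map φ.toEmbedding = F := by
      ext x; simp
    refine ⟨F.map φ.symm.toEmbedding, ?_, hF''⟩
    simp only [Set.mem_ofPred_eq] at hF ⊢
    rw [← hF'', sub_eq G φ hφ] at hF
    exact hF

lemma pUST_eq (G : SimpleGraph V) (φ : Fin m ≃ G.edgeSet)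
    (hφ : ∀ i, ((φ i : G.edgeSet) : Sym2 V) = s(s i, d i)) :
    pUST G = ({F : Finset (Fin m) | (gr s d (F : Set (Fin m))).IsTree ∧
        Splittable (gr s d (F : Set (Fin m)))}.ncard : ℝ) /
      ({F : Finset (Fin m) | (gr s d (F : Set (Fin m))).IsTree}.ncard : ℝ) := by
  unfold pUST
  rw [ncard_transfer G φ hφ (fun T => T.IsTree ∧ Splittable T),
    ncard_transfer G φ hφ (fun T => T.IsTree)]

end Pool.Agent.Q218.SP
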