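import Mathlib

/-!
Definitions: random minimum and uniform spanning trees of a finite graph and the event that they
are splittable into two equal halves.
-/

set_option autoImplicit false

namespace Pool.Agent.Q218.SP

open MeasureTheory

variable {V : Type} [Fintype V]

/-- The spanning subgraph `(V, F)` of `G` with edge set `F`. -/
def sub (G : SimpleGraph V) (F : Set G.edgeSet) : SimpleGraph V :=
  SimpleGraph.fromEdgeSet (Subtype.val '' F)

/-- `T` is splittable into two equal halves: for some edge `e` of `T`, every connected component
of `T - e` has exactly `|V| / 2` vertices. -/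
def Splittable (T : SimpleGraph V) : Prop :=
  ∃ e ∈ T.edgeSet, ∀ c : (T.deleteEdges {e}).ConnectedComponent,
    2 * c.supp.ncard = Fintype.card V

/-- `F` is (the edge set of) a minimum spanning tree of `G` for the edge weights `w`. -/
def IsMST (G : SimpleGraph V) [Fintype G.edgeSet] (w : G.edgeSet → ℝ) (F : Finset G.edgeSet) :
    Prop :=
  (sub G F).IsTree ∧ ∀ F' : Finset G.edgeSet, (sub G F').IsTree → ∑ e ∈ F, w e ≤ ∑ e ∈ F', w e

open Classical in
/-- The probability that the minimum spanning tree of `G`, for i.i.d. edge weights uniform on
`[0, 1]`, is splittable into two equal halves: the volume of the corresponding set of weight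
vectors in the unit cube. -/
noncomputable def pMST (G : SimpleGraph V) : ℝ :=
  (volume {w : G.edgeSet → ℝ | (∀ e, w e ∈ Set.Icc (0 : ℝ) 1) ∧
    ∃ F : Finset G.edgeSet, IsMST G w F ∧ Splittable (sub G F)}).toReal

/-- The probability that a uniformly random spanning tree of `G` is splittable into two equal
halves. -/
noncomputable def pUST (G : SimpleGraph V) : ℝ :=
  ({F : Finset G.edgeSet | (sub G F).IsTree ∧ Splittable (sub G F)}.ncard : ℝ) /
    ({F : Finset G.edgeSet | (sub G F).IsTree}.ncard : ℝ)

end Pool.Agent.Q218.SP
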