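import Mathlib

set_option autoImplicit false

namespace Pool.Agent.Q218.SP

variable {V ι : Type}

/-- graph with edges indexed by `F` -/
def gr (s d : ι → V) (F : Set ι) : SimpleGraph V :=
  SimpleGraph.fromEdgeSet ((fun i => s(s i, d i)) '' F)

variable {s d : ι → V}

lemma gr_mono {F F' : Set ι} (h : F ⊆ F') : gr s d F ≤ gr s d F' :=
  SimpleGraph.fromEdgeSet_mono (Set.image_mono h)

lemma gr_insert (i : ι) (F : Set ι) :
    gr s d (insert i F) = gr s d F ⊔ SimpleGraph.edge (s i) (d i) := by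
  unfold gr SimpleGraph.edge
  rw [Set.image_insert_eq, Set.insert_eq, SimpleGraph.fromEdgeSet_union, sup_comm]

lemma gr_adj {F : Set ι} {u v : V} (h : (gr s d F).Adj u v) :
    ∃ i ∈ F, s(s i, d i) = s(u, v) := by
  unfold gr at h
  rw [SimpleGraph.fromEdgeSet_adj] at h
  obtain ⟨i, hi, h2⟩ := h.1
  exact ⟨i, hi, h2⟩

lemma gr_adj_of_mem (hne : ∀ i, s i ≠ d i) {F : Set ι} {i : ι} (h : i ∈ F) :
    (gr s d F).Adj (s i) (d i) := by
  unfold gr
  rw [SimpleGraph.fromEdgeSet_adj]
  exact ⟨⟨i, h, rfl⟩, hne i⟩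

lemma reach_of_forall {H : SimpleGraph V} {S : Set ι}
    (hS : ∀ i ∈ S, H.Reachable (s i) (d i)) {u v : V} (h : (gr s d S).Reachable u v) :
    H.Reachable u v := by
  obtain ⟨p⟩ := h
  induction p with
  | nil => exact SimpleGraph.Reachable.refl _
  | @cons x y z hxy p ih =>
    obtain ⟨i, hi, h2⟩ := gr_adj hxy
    have h3 : H.Reachable x y := by
      rw [Sym2.eq_iff] at h2
      rcases h2 with ⟨h4, h5⟩ | ⟨h4, h5⟩
      · rw [← h4, ← h5]; exact hS i hi
      · rw [← h4, ← h5]; exact (hS i hi).symm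
    exact h3.trans ih

lemma reach_sup' (H : SimpleGraph V) (a b u v : V) (hab : a ≠ b) :
    (H ⊔ SimpleGraph.edge a b).Reachable u v ↔
      H.Reachable u v ∨ (H.Reachable u a ∧ H.Reachable b v) ∨
        (H.Reachable u b ∧ H.Reachable a v) := by
  constructor
  · rintro ⟨p⟩
    induction p with
    | nil => exact Or.inl (SimpleGraph.Reachable.refl _)
    | @cons x y z h p ih =>
      rw [SimpleGraph.sup_adj] at h
      rcases h with h | h
      · have hxy : H.Reachable x y := h.reachable
        rcases ih with ih | ⟨ih1, ih2⟩ | ⟨ih1, ih2⟩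
        · exact Or.inl (hxy.trans ih)
        · exact Or.inr (Or.inl ⟨hxy.trans ih1, ih2⟩)
        · exact Or.inr (Or.inr ⟨hxy.trans ih1, ih2⟩)
      · rw [SimpleGraph.edge_adj] at h
        rcases h with ⟨⟨rfl, rfl⟩ | ⟨rfl, rfl⟩, -⟩
        · rcases ih with ih | ⟨ih1, ih2⟩ | ⟨ih1, ih2⟩
          · exact Or.inr (Or.inl ⟨SimpleGraph.Reachable.refl _, ih⟩)
          · exact Or.inr (Or.inl ⟨SimpleGraph.Reachable.refl _, ih2⟩)
          · exact Or.inl ih2
        · rcases ih with ih | ⟨ih1, ih2⟩ | ⟨ih1, ih2⟩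
          · exact Or.inr (Or.inr ⟨SimpleGraph.Reachable.refl _, ih⟩)
          · exact Or.inl ih2
          · exact Or.inr (Or.inr ⟨SimpleGraph.Reachable.refl _, ih2⟩)
  · have hle : H ≤ H ⊔ SimpleGraph.edge a b := le_sup_left
    have hadj : (H ⊔ SimpleGraph.edge a b).Reachable a b := by
      apply SimpleGraph.Adj.reachable
      rw [SimpleGraph.sup_adj, SimpleGraph.edge_adj]
      exact Or.inr ⟨Or.inl ⟨rfl, rfl⟩, hab⟩
    rintro (h | ⟨h1, h2⟩ | ⟨h1, h2⟩)
    · exact h.mono hle
    · exact (h1.mono hle).trans (hadj.trans (h2.mono hle))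
    · exact (h1.mono hle).trans (hadj.symm.trans (h2.mono hle))

/-- adding a nonloop keeps acyclicity -/
lemma acyclic_insert {F : Set ι} (hac : (gr s d F).IsAcyclic) {i : ι}
    (h : ¬ (gr s d F).Reachable (s i) (d i)) : (gr s d (insert i F)).IsAcyclic := by
  rw [gr_insert]
  exact SimpleGraph.IsAcyclic.sup_edge_of_not_reachable h hac

lemma not_adj_of_not_mem (hinj : Function.Injective (fun i => s(s i, d i))) {F : Set ι} {i : ι}
    (h : i ∉ F) : ¬ (gr s d F).Adj (s i) (d i) := by
  intro hadj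
  obtain ⟨j, hj, h2⟩ := gr_adj hadj
  have : j = i := hinj h2
  exact h (this ▸ hj)

/-- edges of an acyclic graph are bridges -/
lemma bridge (hne : ∀ i, s i ≠ d i) (hinj : Function.Injective (fun i => s(s i, d i)))
    {F : Set ι} (hac : (gr s d F).IsAcyclic) {f : ι} (hf : f ∈ F) :
    ¬ (gr s d (F \ {f})).Reachable (s f) (d f) := by
  intro h
  have h1 : insert f (F \ {f}) = F := by
    rw [Set.insert_sdiff_singleton, Set.insert_eq_of_mem hf]
  rw [← h1, gr_insert, SimpleGraph.isAcyclic_sup_fromEdgeSet_iff] at hac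
  rcases hac.2 h with h2 | h2
  · exact hne f h2
  · exact not_adj_of_not_mem hinj (by simp) h2

/-- the exchange property of spanning trees -/
lemma exchange (hne : ∀ i, s i ≠ d i) (hinj : Function.Injective (fun i => s(s i, d i)))
    {F : Set ι} (hT : (gr s d F).IsTree) {f g : ι} (hf : f ∈ F)
    (hg : ¬ (gr s d (F \ {f})).Reachable (s g) (d g)) :
    (gr s d (insert g (F \ {f}))).IsTree := by
  have hac' : (gr s d (F \ {f})).IsAcyclic := hT.isAcyclic.anti (gr_mono Set.sdiff_subset)
  refine ⟨?_, acyclic_insert hac' hg⟩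
  have h1 : insert f (F \ {f}) = F := by
    rw [Set.insert_sdiff_singleton, Set.insert_eq_of_mem hf]
  set H := gr s d (F \ {f}) with hH
  have hconn : ∀ u v, H.Reachable u v ∨ (H.Reachable u (s f) ∧ H.Reachable (d f) v) ∨
      (H.Reachable u (d f) ∧ H.Reachable (s f) v) := by
    intro u v
    rw [← reach_sup' H (s f) (d f) u v (hne f), hH, ← gr_insert, h1]
    exact hT.connected u v
  have hcls : ∀ u, H.Reachable u (s f) ∨ H.Reachable u (d f) := by
    intro u
    rcases hconn u (s f) with h | ⟨h, -⟩ | ⟨h, -⟩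
    · exact Or.inl h
    · exact Or.inl h
    · exact Or.inr h
  have hnon : V := s f
  rw [SimpleGraph.connected_iff]
  refine ⟨fun u v => ?_, ⟨hnon⟩⟩
  rw [gr_insert, ← hH, reach_sup' H (s g) (d g) u v (hne g)]
  rcases hcls (s g) with h2 | h2 <;> rcases hcls (d g) with h3 | h3
  · exact absurd (h2.trans h3.symm) hg
  · rcases hcls u with h4 | h4 <;> rcases hcls v with h5 | h5
    · exact Or.inl (h4.trans h5.symm)
    · exact Or.inr (Or.inl ⟨h4.trans h2.symm, h3.trans h5.symm⟩)
    · exact Or.inr (Or.inr ⟨h4.trans h3.symm, h2.trans h5.symm⟩)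
    · exact Or.inl (h4.trans h5.symm)
  · rcases hcls u with h4 | h4 <;> rcases hcls v with h5 | h5
    · exact Or.inl (h4.trans h5.symm)
    · exact Or.inr (Or.inr ⟨h4.trans h3.symm, h2.trans h5.symm⟩)
    · exact Or.inr (Or.inl ⟨h4.trans h2.symm, h3.trans h5.symm⟩)
    · exact Or.inl (h4.trans h5.symm)
  · exact absurd (h2.trans h3.symm) hg

variable [Fintype ι] [DecidableEq ι]

/-- `F` is a minimum spanning tree, indexed version -/
def IsM (s d : ι → V) (w : ι → ℝ) (F : Finset ι) : Prop :=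
  (gr s d F).IsTree ∧ ∀ F' : Finset ι, (gr s d F').IsTree → ∑ e ∈ F, w e ≤ ∑ e ∈ F', w e

omit [Fintype ι] in
lemma mst_sub (hne : ∀ i, s i ≠ d i) (hinj : Function.Injective (fun i => s(s i, d i)))
    {w : ι → ℝ} {F : Finset ι} (hF : IsM s d w F) {f : ι} (hf : f ∈ F) :
    ¬ (gr s d {j | w j < w f}).Reachable (s f) (d f) := by
  intro h
  have hb := bridge hne hinj hF.1.isAcyclic (f := f) (by exact_mod_cast hf)
  have : ∃ g, w g < w f ∧ ¬ (gr s d ((F : Set ι) \ {f})).Reachable (s g) (d g) := by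
    by_contra hcon
    push Not at hcon
    exact hb (reach_of_forall (S := {j | w j < w f}) (fun i hi => hcon i hi) h)
  obtain ⟨g, hg1, hg2⟩ := this
  have hT := exchange hne hinj hF.1 (f := f) (g := g) (by exact_mod_cast hf) hg2
  have hgF : g ∉ F.erase f := by
    intro hg3
    apply hg2
    apply SimpleGraph.Adj.reachable
    apply gr_adj_of_mem hne
    rw [Finset.mem_erase] at hg3
    exact ⟨by exact_mod_cast hg3.2, hg3.1⟩
  have hset : ((insert g (F.erase f) : Finset ι) : Set ι) = insert g ((F : Set ι) \ {f}) := by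
    rw [Finset.coe_insert, Finset.coe_erase]
  have h1 := hF.2 (insert g (F.erase f)) (by rw [hset]; exact hT)
  rw [Finset.sum_insert hgF] at h1
  have h2 := Finset.add_sum_erase F w hf
  linarith

/-- If `K` is a spanning tree containing all edges that are not spanned by lighter edges, then the
minimum spanning tree is `K`. -/
lemma mst_eq (hne : ∀ i, s i ≠ d i) (hinj : Function.Injective (fun i => s(s i, d i)))
    {w : ι → ℝ} {K : Finset ι} (hK : (gr s d K).IsTree)
    (hK2 : ∀ i, ¬ (gr s d {j | w j < w i}).Reachable (s i) (d i) → i ∈ K) (F : Finset ι) :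
    IsM s d w F ↔ F = K := by
  classical
  have key : ∀ F : Finset ι, IsM s d w F → F = K := by
    intro F hF
    have hsub : F ⊆ K := fun f hf => hK2 f (mst_sub hne hinj hF hf)
    have hmin := (SimpleGraph.isTree_iff_minimal_connected.1 hK).2 hF.1.connected
      (gr_mono (by exact_mod_cast hsub))
    apply Finset.Subset.antisymm hsub
    intro i hi
    have hadj := hmin (gr_adj_of_mem hne (F := (K : Set ι)) (by exact_mod_cast hi))
    obtain ⟨j, hj, h2⟩ := gr_adj hadj
    have : j = i := hinj h2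
    rw [← this]
    exact_mod_cast hj
  constructor
  · exact key F
  · rintro rfl
    obtain ⟨F0, hF0, hmin⟩ := Finset.exists_min_image
      (Finset.univ.filter (fun F' : Finset ι => (gr s d (F' : Set ι)).IsTree))
      (fun F' => ∑ e ∈ F', w e) ⟨F, by simpa using hK⟩
    have hM : IsM s d w F0 := by
      refine ⟨by simpa using hF0, fun F' hF' => hmin F' (by simpa using hF')⟩
    have := key F0 hM
    rw [← this]
    exact hM

end Pool.Agent.Q218.SP
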