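import Pool.Agent.Q218.SP.Tab

set_option autoImplicit false

namespace Pool.Agent.Q218.SP

abbrev VV := Fin 2 × Fin 4

/-- labels represent connected components -/
def Rep (H : SimpleGraph VV) (L : List ℕ) : Prop :=
  L.length = 8 ∧ ∀ u v : VV, L.getD (ix u) 0 = L.getD (ix v) 0 ↔ H.Reachable u v

lemma ix_lt (u : VV) : ix u < 8 := by
  obtain ⟨a, b⟩ := u
  have := a.2; have := b.2
  simp only [ix]; omega

lemma mg_getD (L : List ℕ) (hL : L.length = 8) (a b k : ℕ) (hk : k < 8) :
    (mg L a b).getD k 0 = if L.getD k 0 = L.getD a 0 then L.getD b 0 else L.getD k 0 := by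
  have hu : k < L.length := by rw [hL]; exact hk
  unfold mg
  rw [List.getD_eq_getElem (l := List.map _ L) 0 (by simpa using hu),
    List.getElem_map, List.getD_eq_getElem (l := L) (n := k) 0 hu]

lemma Rep.mg {H : SimpleGraph VV} {L : List ℕ} (h : Rep H L) (a b : VV) (hab : a ≠ b) :
    Rep (H ⊔ SimpleGraph.edge a b) (mg L (ix a) (ix b)) := by
  obtain ⟨hL, hR⟩ := h
  refine ⟨by simp [SP.mg, hL], fun u v => ?_⟩
  rw [reach_sup' H a b u v hab, mg_getD L hL _ _ _ (ix_lt u), mg_getD L hL _ _ _ (ix_lt v),
    ← hR u v, ← hR u a, ← hR b v, ← hR u b, ← hR a v]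
  generalize L.getD (ix u) 0 = U
  generalize L.getD (ix v) 0 = W
  generalize L.getD (ix a) 0 = A
  generalize L.getD (ix b) 0 = B
  split_ifs with h1 h2 h2
  · subst h1; subst h2; simp
  · subst h1
    constructor
    · intro h; subst h; simp
    · rintro (h | ⟨-, h⟩ | ⟨h, h'⟩)
      · exact absurd h.symm h2
      · exact h
      · exact absurd h'.symm h2
  · subst h2
    constructor
    · intro h; subst h; simp
    · rintro (h | ⟨h, h'⟩ | ⟨h, h'⟩)
      · exact absurd h h1
      · exact absurd h h1
      · exact h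
  · constructor
    · intro h; exact Or.inl h
    · rintro (h | ⟨h, h'⟩ | ⟨h, h'⟩)
      · exact h
      · exact absurd h h1
      · exact absurd h'.symm h2

lemma sd_ne : ∀ i, sr i ≠ ds i := by decide

lemma sd_inj : Function.Injective (fun i => s(sr i, ds i)) := by
  unfold Function.Injective
  decide

lemma rep_lab (l : List (Fin 10)) : Rep (gr sr ds {i | i ∈ l}) (lab l) := by
  induction l with
  | nil =>
    have h0 : gr sr ds {i : Fin 10 | i ∈ ([] : List (Fin 10))} = ⊥ := by
      unfold gr; simp
    rw [h0]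
    refine ⟨rfl, fun u v => ?_⟩
    rw [SimpleGraph.reachable_bot]
    revert u v
    decide
  | cons a l ih =>
    have h1 : {i | i ∈ a :: l} = insert a {i | i ∈ l} := by
      ext i; simp
    rw [h1, gr_insert]
    exact ih.mg (sr a) (ds a) (sd_ne a)

lemma mem_nl {H : SimpleGraph VV} {L : List ℕ} (h : Rep H L) (i : Fin 10) :
    i ∈ nl L ↔ ¬ H.Reachable (sr i) (ds i) := by
  unfold nl
  rw [List.mem_filter, ← h.2]
  simp

/-- the sorted list of a finset -/
def lst (F : Finset (Fin 10)) : List (Fin 10) := (List.finRange 10).filter (fun i => i ∈ F)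

lemma mem_lst (F : Finset (Fin 10)) (i : Fin 10) : i ∈ lst F ↔ i ∈ F := by
  simp [lst]

lemma lst_nodup (F : Finset (Fin 10)) : (lst F).Nodup := (List.nodup_finRange 10).filter _

lemma lst_sub (F : Finset (Fin 10)) : lst F ∈ (List.finRange 10).sublists :=
  List.mem_sublists.2 List.filter_sublist

lemma lst_toFinset (F : Finset (Fin 10)) : (lst F).toFinset = F := by
  ext i; rw [List.mem_toFinset, mem_lst]

lemma lst_set (F : Finset (Fin 10)) : {i | i ∈ lst F} = (F : Set (Fin 10)) := by
  ext i; simp [mem_lst]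

lemma rep_fin (F : Finset (Fin 10)) : Rep (gr sr ds (F : Set (Fin 10))) (lab (lst F)) := by
  rw [← lst_set]; exact rep_lab _

noncomputable def HH (F : Finset (Fin 10)) : ℕ := tb (∑ i ∈ F, 2 ^ i.val)

lemma code_lst (F : Finset (Fin 10)) : code (lst F) = ∑ i ∈ F, 2 ^ i.val := by
  unfold code
  rw [← List.sum_toFinset _ (lst_nodup F), lst_toFinset]

/-- the equivalence between vertices and `Fin 8` -/
def ixF (u : VV) : Fin 8 := ⟨ix u, ix_lt u⟩

lemma ixF_bij : Function.Bijective ixF := by
  unfold Function.Bijective Function.Injective Function.Surjective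
  decide

lemma half_iff {H : SimpleGraph VV} {L : List ℕ} (h : Rep H L) :
    (∀ c : H.ConnectedComponent, 2 * c.supp.ncard = Fintype.card VV) ↔ halfB L = true := by
  have hcard : Fintype.card VV = 8 := by decide
  rw [hcard]
  have key : ∀ v : VV, (H.connectedComponentMk v).supp.ncard =
      ((List.finRange 8).filter
        (fun j => L.getD j.val 0 == L.getD (ixF v).val 0)).length := by
    intro v
    rw [← List.toFinset_card_of_nodup ((List.nodup_finRange 8).filter _)]
    rw [← Set.ncard_coe_finset]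
    apply Set.ncard_congr (fun u _ => ixF u)
    · intro u hu
      rw [SimpleGraph.ConnectedComponent.mem_supp_iff, SimpleGraph.ConnectedComponent.eq] at hu
      simp only [List.coe_toFinset, Set.mem_ofPred_eq, List.mem_filter, List.mem_finRange,
        true_and, beq_iff_eq]
      exact (h.2 u v).2 hu
    · intro u u' _ _ huu
      exact ixF_bij.1 huu
    · intro j hj
      obtain ⟨u, rfl⟩ := ixF_bij.2 j
      refine ⟨u, ?_, rfl⟩
      simp only [List.coe_toFinset, Set.mem_ofPred_eq, List.mem_filter, List.mem_finRange,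
        true_and, beq_iff_eq] at hj
      rw [SimpleGraph.ConnectedComponent.mem_supp_iff, SimpleGraph.ConnectedComponent.eq]
      exact (h.2 u v).1 hj
  unfold halfB
  rw [List.all_eq_true]
  constructor
  · intro hc k _
    obtain ⟨v, rfl⟩ := ixF_bij.2 k
    have := hc (H.connectedComponentMk v)
    rw [key v] at this
    rw [beq_iff_eq]
    omega
  · intro hk c
    refine SimpleGraph.ConnectedComponent.ind ?_ c
    intro v
    have := hk (ixF v) (List.mem_finRange _)
    rw [beq_iff_eq] at this
    rw [key v, this]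

lemma split_iff (F : Finset (Fin 10)) :
    Splittable (gr sr ds (F : Set (Fin 10))) ↔ spB (lst F) = true := by
  unfold Splittable spB
  rw [List.any_eq_true]
  have hdel : ∀ i ∈ F, (gr sr ds (F : Set (Fin 10))).deleteEdges {s(sr i, ds i)} =
      gr sr ds {j | j ∈ (lst F).erase i} := by
    intro i hi
    ext u v
    rw [SimpleGraph.deleteEdges_adj]
    unfold gr
    rw [SimpleGraph.fromEdgeSet_adj, SimpleGraph.fromEdgeSet_adj]
    simp only [Set.mem_image, Set.mem_singleton_iff, Set.mem_ofPred_eq, Finset.mem_coe]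
    constructor
    · rintro ⟨⟨⟨j, hj, h1⟩, huv⟩, h2⟩
      refine ⟨⟨j, ?_, h1⟩, huv⟩
      rw [(lst_nodup F).mem_erase_iff, mem_lst]
      refine ⟨?_, hj⟩
      rintro rfl
      exact h2 h1.symm
    · rintro ⟨⟨j, hj, h1⟩, huv⟩
      rw [(lst_nodup F).mem_erase_iff, mem_lst] at hj
      refine ⟨⟨⟨j, hj.2, h1⟩, huv⟩, ?_⟩
      intro h2
      rw [← h1] at h2
      exact hj.1 (sd_inj h2)
  constructor
  · rintro ⟨e, he, hc⟩
    have : ∃ i ∈ F, s(sr i, ds i) = e := by
      unfold gr at he
      rw [SimpleGraph.edgeSet_fromEdgeSet] at he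
      obtain ⟨i, hi, h1⟩ := he.1
      exact ⟨i, by exact_mod_cast hi, h1⟩
    obtain ⟨i, hi, rfl⟩ := this
    refine ⟨i, (mem_lst F i).2 hi, ?_⟩
    rw [hdel i hi] at hc
    exact (half_iff (rep_lab _)).1 hc
  · rintro ⟨i, hi, hc⟩
    rw [mem_lst] at hi
    refine ⟨s(sr i, ds i), ?_, ?_⟩
    · exact gr_adj_of_mem sd_ne (F := (F : Set (Fin 10))) (by exact_mod_cast hi)
    · rw [hdel i hi]
      exact (half_iff (rep_lab _)).2 hc

lemma chk (F : Finset (Fin 10)) : CHK (lst F) = true :=
  (List.all_eq_true.1 CHK_all) (lst F) (lst_sub F)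

open Classical in
lemma HH1 (F : Finset (Fin 10))
    (hF : ∀ i, (gr sr ds (F : Set (Fin 10))).Reachable (sr i) (ds i)) :
    HH F = 45360 * (if Splittable (gr sr ds (F : Set (Fin 10))) then 1 else 0) := by
  have h := chk F
  unfold CHK at h
  have hnl : nl (lab (lst F)) = [] := by
    rw [List.eq_nil_iff_forall_not_mem]
    intro i hi
    exact (mem_nl (rep_fin F) i).1 hi (hF i)
  rw [if_pos hnl, beq_iff_eq, code_lst] at h
  unfold HH
  rw [h]
  congr 1
  by_cases hs : spB (lst F) = true
  · rw [if_pos hs, if_pos ((split_iff F).2 hs)]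
  · rw [if_neg hs, if_neg (fun h' => hs ((split_iff F).1 h'))]

open Classical in
lemma HH2 (F : Finset (Fin 10)) :
    (Finset.univ.filter
      (fun i => ¬ (gr sr ds (F : Set (Fin 10))).Reachable (sr i) (ds i))).card * HH F =
      ∑ i ∈ Finset.univ.filter
        (fun i => ¬ (gr sr ds (F : Set (Fin 10))).Reachable (sr i) (ds i)), HH (insert i F) := by
  have hnd : (nl (lab (lst F))).Nodup := (List.nodup_finRange 10).filter _
  have hset : Finset.univ.filter
      (fun i => ¬ (gr sr ds (F : Set (Fin 10))).Reachable (sr i) (ds i)) =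
      (nl (lab (lst F))).toFinset := by
    ext i
    rw [List.mem_toFinset, mem_nl (rep_fin F)]
    simp
  rw [hset, List.toFinset_card_of_nodup hnd]
  have h := chk F
  unfold CHK at h
  by_cases hnl : nl (lab (lst F)) = []
  · rw [hnl]; simp
  · rw [if_neg hnl, beq_iff_eq, code_lst] at h
    change _ * tb (∑ i ∈ F, 2 ^ i.val) = _
    rw [h, ← List.sum_toFinset _ hnd]
    refine Finset.sum_congr rfl fun i hi => ?_
    rw [List.mem_toFinset, mem_nl (rep_fin F)] at hi
    have hiF : i ∉ F := by
      intro hiF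
      apply hi
      exact (gr_adj_of_mem sd_ne (F := (F : Set (Fin 10))) (by exact_mod_cast hiF)).reachable
    unfold HH
    rw [Finset.sum_insert hiF, add_comm]

lemma conn_univ : (gr sr ds (Set.univ : Set (Fin 10))).Connected := by
  have h := rep_fin Finset.univ
  rw [Finset.coe_univ] at h
  rw [SimpleGraph.connected_iff]
  refine ⟨fun u v => ?_, ⟨(0, 0)⟩⟩
  rw [← h.2]
  revert u v
  decide +kernel

lemma conn_iff (F : Finset (Fin 10)) :
    (gr sr ds (F : Set (Fin 10))).Connected ↔ nl (lab (lst F)) = [] := by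
  rw [List.eq_nil_iff_forall_not_mem]
  constructor
  · intro h i hi
    exact (mem_nl (rep_fin F) i).1 hi (h _ _)
  · intro h
    rw [SimpleGraph.connected_iff]
    refine ⟨fun u v => ?_, ⟨(0, 0)⟩⟩
    refine reach_of_forall (S := Set.univ) (fun i _ => ?_) (conn_univ u v)
    by_contra hn
    exact h i ((mem_nl (rep_fin F) i).2 hn)

lemma edgeSet_gr (F : Finset (Fin 10)) : Nat.card (gr sr ds (F : Set (Fin 10))).edgeSet = F.card := by
  have h : (gr sr ds (F : Set (Fin 10))).edgeSet = (fun i => s(sr i, ds i)) '' (F : Set (Fin 10)) := by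
    unfold gr
    rw [SimpleGraph.edgeSet_fromEdgeSet]
    ext e
    simp only [Set.mem_sdiff, Set.mem_image, and_iff_left_iff_imp]
    rintro ⟨i, -, rfl⟩
    exact fun h => sd_ne i h
  rw [h, Nat.card_coe_set_eq, Set.ncard_image_of_injective _ sd_inj, Set.ncard_coe_finset]

lemma tree_iff (F : Finset (Fin 10)) :
    (gr sr ds (F : Set (Fin 10))).IsTree ↔ trB (lst F) = true := by
  rw [SimpleGraph.isTree_iff_connected_and_card, conn_iff, edgeSet_gr]
  unfold trB
  have h1 : (lst F).length = F.card := by
    rw [← List.toFinset_card_of_nodup (lst_nodup F), lst_toFinset]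
  have h2 : Nat.card VV = 8 := by rw [Nat.card_eq_fintype_card]; decide
  rw [h1, h2]
  simp only [Bool.and_eq_true, beq_iff_eq, decide_eq_true_eq]
  constructor
  · rintro ⟨h3, h4⟩; exact ⟨by omega, h3⟩
  · rintro ⟨h3, h4⟩; exact ⟨h4, by omega⟩

lemma lst_inj : Function.Injective lst := by
  intro F F' h
  rw [← lst_toFinset F, h, lst_toFinset]

lemma filt {L l : List (Fin 10)} (h : l.Sublist L) (hnd : L.Nodup) :
    L.filter (fun i => decide (i ∈ l)) = l := by
  induction h with
  | slnil => rfl
  | @cons l L a h ih =>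
    rw [List.nodup_cons] at hnd
    have ha : a ∉ l := fun h' => hnd.1 (h.subset h')
    rw [List.filter_cons_of_neg (by simpa using ha)]
    exact ih hnd.2
  | @cons_cons l L a h ih =>
    rw [List.nodup_cons] at hnd
    rw [List.filter_cons_of_pos (by simp)]
    congr 1
    conv_rhs => rw [← ih hnd.2]
    apply List.filter_congr
    intro x hx
    have hxa : x ≠ a := fun h' => hnd.1 (h' ▸ hx)
    simp only [List.mem_cons, decide_eq_decide]
    constructor
    · rintro (h1 | h1)
      · exact absurd h1 hxa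
      · exact h1
    · intro h1
      exact Or.inr h1

lemma lst_surj (l : List (Fin 10)) (hl : l ∈ (List.finRange 10).sublists) :
    lst l.toFinset = l := by
  rw [List.mem_sublists] at hl
  conv_rhs => rw [← filt hl (List.nodup_finRange 10)]
  unfold lst
  apply List.filter_congr
  intro x _
  simp

lemma ncard_lst (Q : Finset (Fin 10) → Prop) (QB : List (Fin 10) → Bool)
    (h : ∀ F, Q F ↔ QB (lst F) = true) :
    {F : Finset (Fin 10) | Q F}.ncard = ((List.finRange 10).sublists.filter QB).length := by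
  have hnd : ((List.finRange 10).sublists.filter QB).Nodup :=
    (List.nodup_sublists.2 (List.nodup_finRange 10)).filter _
  rw [← List.toFinset_card_of_nodup hnd, ← Set.ncard_coe_finset]
  apply Set.ncard_congr (fun F _ => lst F)
  · intro F hF
    simp only [List.coe_toFinset, Set.mem_ofPred_eq, List.mem_filter]
    exact ⟨lst_sub F, (h F).1 hF⟩
  · intro F F' _ _ hFF
    exact lst_inj hFF
  · intro l hl
    simp only [List.coe_toFinset, Set.mem_ofPred_eq, List.mem_filter] at hl
    refine ⟨l.toFinset, ?_, lst_surj l hl.1⟩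
    rw [Set.mem_ofPred_eq, h, lst_surj l hl.1]
    exact hl.2

lemma tree_ncard : {F : Finset (Fin 10) | (gr sr ds (F : Set (Fin 10))).IsTree}.ncard = 56 := by
  rw [ncard_lst _ trB tree_iff, tree_count]

lemma split_ncard : {F : Finset (Fin 10) | (gr sr ds (F : Set (Fin 10))).IsTree ∧
    Splittable (gr sr ds (F : Set (Fin 10)))}.ncard = 44 := by
  rw [ncard_lst _ (fun l => trB l && spB l), split_count]
  intro F
  rw [Bool.and_eq_true, tree_iff, split_iff]

/-- the ladder -/
def ladder : SimpleGraph VV := gr sr ds Set.univ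

end Pool.Agent.Q218.SP
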